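import Pool.Agent.helper62.DP8.Spec

set_option autoImplicit false

namespace Pool.Agent.helper62.DP8

theorem GOA : GOA_stmt := by
  intro V _ G s hs hPc W R L hW hCov hL
  obtain ⟨f, hf1, hf2⟩ := hPc W R L hW hCov (fun v _ => by
    have h1 := hs v
    have h2 := hL v
    omega)
  exact ⟨f, fun v => hf1 v (Finset.mem_univ v), fun u v huv => hf2 u (Finset.mem_univ u) v (Finset.mem_univ v) huv⟩

end Pool.Agent.helper62.DP8
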